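import Pool.Agent.H84.ND.Targets3

/-!
# MP_70ba79_ag, board `ndc_modules`: row BZM
-/

set_option autoImplicit false

namespace Pool.Agent.H42.ND

open MvPolynomial SC Pool.Agent.H27.LV Pool.Agent.H84.SM Pool.Agent.H84.ND

section BZM

variable {k : Type} [Field k]

/-- congruence of values -/
theorem aeval_sub_mem {σ S : Type} [CommRing S] [Algebra k S] (I : Ideal S) {f g : σ → S}
    (h : ∀ j, f j - g j ∈ I) (P : MvPolynomial σ k) : aeval f P - aeval g P ∈ I := by
  induction P using MvPolynomial.induction_on with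
  | C c =>
    rw [algHom_C, algHom_C, sub_self]
    exact I.zero_mem
  | add p q hp hq =>
    rw [map_add, map_add, add_sub_add_comm]
    exact I.add_mem hp hq
  | mul_X p i hp =>
    rw [map_mul, map_mul, aeval_X, aeval_X]
    have h1 : aeval f p * f i - aeval g p * g i =
        f i * (aeval f p - aeval g p) + aeval g p * (f i - g i) := by ring
    rw [h1]
    exact I.add_mem (I.mul_mem_left _ hp) (I.mul_mem_left _ (h i))

/-- scaling of forms -/
theorem aeval_scale {σ S : Type} [CommRing S] [Algebra k S] {P : MvPolynomial σ k} {r : ℕ}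
    (hP : P.IsHomogeneous r) (f : σ → S) (t : S) :
    aeval (fun j => t * f j) P = t ^ r * aeval f P := by
  rw [aeval_def, aeval_def, eval₂_eq, eval₂_eq, Finset.mul_sum]
  refine Finset.sum_congr rfl fun m hm => ?_
  have h1 : ∑ i ∈ m.support, m i = r := by
    have := hP (mem_support_iff.1 hm)
    rw [Finsupp.weight_apply, Finsupp.sum] at this
    simpa using this
  rw [Finset.prod_congr rfl fun i _ => mul_pow t (f i) (m i), Finset.prod_mul_distrib,
    Finset.prod_pow_eq_pow_sum, h1]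
  ring

theorem ae (s : Fin 3 → k) (P : MvPolynomial (Fin 3) k) : aeval s P = eval s P := by
  rw [← coe_aeval_eq_eval]
  rfl

/-- the linear forms vanishing at `s` -/
noncomputable def lf (s : Fin 3 → k) (j c : Fin 3) : MvPolynomial (Fin 3) k :=
  C (s j) * X c - C (s c) * X j

theorem form_mem {s : Fin 3 → k} {j : Fin 3} (hj : s j ≠ 0) {f : MvPolynomial (Fin 3) k} {r : ℕ}
    (hf : f.IsHomogeneous r) (h0 : eval s f = 0) :
    f ∈ Ideal.span {lf s j (j + 1), lf s j (j + 2)} := by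
  have h1 : ∀ c, (C (s j) * X c - X j * C (s c) : MvPolynomial (Fin 3) k) ∈
      Ideal.span {lf s j (j + 1), lf s j (j + 2)} := by
    intro c
    have h4 : ∀ l j : Fin 3, j = l ∨ j = l + 1 ∨ j = l + 2 := by decide
    rcases h4 j c with h | h | h
    · subst h
      rw [mul_comm (X c) _, sub_self]
      exact Ideal.zero_mem _
    · subst h
      rw [mul_comm (X j) _]
      exact Ideal.subset_span (Set.mem_insert _ _)
    · subst h
      rw [mul_comm (X j) _]
      exact Ideal.subset_span (Set.mem_insert_of_mem _ rfl)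
  have h2 := aeval_sub_mem (k := k) _ h1 f
  rw [aeval_scale hf (fun c => (X c : MvPolynomial (Fin 3) k)),
    aeval_scale hf (fun c => (C (s c) : MvPolynomial (Fin 3) k))] at h2
  have h3 : aeval (fun c => (C (s c) : MvPolynomial (Fin 3) k)) f = C (eval s f) := by
    have h5 := comp_aeval_apply (R := k) (f := fun c => s c)
      (φ := (Algebra.ofId k (MvPolynomial (Fin 3) k))) f
    have h6 : aeval (fun c => s c) f = eval s f := ae s f
    rw [h6] at h5
    exact h5.symm
  have h4 : aeval (fun c => (X c : MvPolynomial (Fin 3) k)) f = f := by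
    rw [aeval_X_left, AlgHom.id_apply]
  rw [h3, h0, map_zero, mul_zero, sub_zero, h4, ← C_pow] at h2
  have h5 := Ideal.mul_mem_left _ (C ((s j ^ r)⁻¹)) h2
  rwa [← mul_assoc, ← C_mul, inv_mul_cancel₀ (pow_ne_zero _ hj), C_1, one_mul] at h5

theorem eval_lf (s : Fin 3 → k) (j c : Fin 3) : eval s (lf s j c) = 0 := by
  rw [lf]
  simp only [map_sub, map_mul, eval_C, eval_X]
  ring

theorem pderiv_lf (s : Fin 3 → k) {j c : Fin 3} (hc : c ≠ j) (c' : Fin 3) (h' : c' ≠ j) :
    pderiv c' (lf s j c) = if c' = c then C (s j) else 0 := by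
  rw [lf, map_sub, Derivation.leibniz, Derivation.leibniz, pderiv_X, pderiv_X, pderiv_C, pderiv_C]
  rw [Pi.single_eq_of_ne (i := c') (Ne.symm h')]
  by_cases h : c' = c
  · subst h
    rw [Pi.single_eq_same, if_pos rfl]
    simp
  · rw [Pi.single_eq_of_ne (Ne.symm h), if_neg h]
    simp

theorem gr_form (s : Fin 3 → k) (j : Fin 3) (A B : MvPolynomial (Fin 3) k) :
    gr (A * lf s j (j + 1) + B * lf s j (j + 2)) s (j + 1) = s j * eval s A ∧
    gr (A * lf s j (j + 1) + B * lf s j (j + 2)) s (j + 2) = s j * eval s B := by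
  have h5 : ∀ l : Fin 3, l + 1 ≠ l := by decide
  have h6 : ∀ l : Fin 3, l + 2 ≠ l := by decide
  have h7 : ∀ l : Fin 3, l + 2 ≠ l + 1 := by decide
  refine ⟨?_, ?_⟩
  · rw [gr, map_add, Derivation.leibniz, Derivation.leibniz,
      pderiv_lf s (h5 j) _ (h5 j), pderiv_lf s (h6 j) _ (h5 j), if_pos rfl,
      if_neg (Ne.symm (h7 j)), ae]
    simp only [smul_eq_mul, map_add, map_mul, eval_lf, eval_C, map_zero]
    ring
  · rw [gr, map_add, Derivation.leibniz, Derivation.leibniz,
      pderiv_lf s (h5 j) _ (h6 j), pderiv_lf s (h6 j) _ (h6 j), if_pos rfl,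
      if_neg (h7 j), ae]
    simp only [smul_eq_mul, map_add, map_mul, eval_lf, eval_C, map_zero]
    ring

theorem sumf3 {L : Type} [CommRing L] (f : Fin 3 → L) (l : Fin 3) :
    ∑ i, f i = f l + f (l + 1) + f (l + 2) := by
  rw [Fin.sum_univ_three]
  fin_cases l
  · rfl
  · show f 0 + f 1 + f 2 = f 1 + f 2 + f 0
    ring
  · show f 0 + f 1 + f 2 = f 2 + f 0 + f 1
    ring

theorem gr_euler {H : MvPolynomial (Fin 3) k} {a : ℕ} (hH : H.IsHomogeneous a) {s : Fin 3 → k}
    (h0 : eval s H = 0) (j : Fin 3) :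
    s j * gr H s j + s (j + 1) * gr H s (j + 1) + s (j + 2) * gr H s (j + 2) = 0 := by
  have h := congrArg (eval s) hH.sum_X_mul_pderiv
  rw [map_sum, map_nsmul, h0, smul_zero] at h
  rw [← sumf3 (fun i => s i * gr H s i) j, ← h]
  refine Finset.sum_congr rfl fun i _ => ?_
  rw [map_mul, eval_X, gr, ae]

theorem cr_comp_ne {g1 g2 s : Fin 3 → k} {j : Fin 3} (hj : s j ≠ 0)
    (h1 : s j * g1 j + s (j + 1) * g1 (j + 1) + s (j + 2) * g1 (j + 2) = 0)
    (h2 : s j * g2 j + s (j + 1) * g2 (j + 1) + s (j + 2) * g2 (j + 2) = 0)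
    (hc : cr g1 g2 ≠ 0) : g1 (j + 1) * g2 (j + 2) - g1 (j + 2) * g2 (j + 1) ≠ 0 := by
  intro h0
  apply hc
  have e1 : ∀ j : Fin 3, j + 1 + 1 = j + 2 := by decide
  have e2 : ∀ j : Fin 3, j + 1 + 2 = j := by decide
  have e3 : ∀ j : Fin 3, j + 2 + 1 = j := by decide
  have e4 : ∀ j : Fin 3, j + 2 + 2 = j + 1 := by decide
  have h4 : ∀ l j : Fin 3, j = l ∨ j = l + 1 ∨ j = l + 2 := by decide
  funext i
  rw [Pi.zero_apply, cr]
  rcases h4 j i with h | h | h
  · subst h
    exact h0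
  · subst h
    rw [e1, e2]
    have h5 : s j * (g1 (j + 2) * g2 j - g1 j * g2 (j + 2)) = 0 := by
      linear_combination g1 (j + 2) * h2 - g2 (j + 2) * h1 + s (j + 1) * h0
    exact (mul_eq_zero.1 h5).resolve_left hj
  · subst h
    rw [e3, e4]
    have h5 : s j * (g1 j * g2 (j + 1) - g1 (j + 1) * g2 j) = 0 := by
      linear_combination g2 (j + 1) * h1 - g1 (j + 1) * h2 + s (j + 2) * h0
    exact (mul_eq_zero.1 h5).resolve_left hj

end BZM

theorem pf_BZM : T_BZM := by
  intro k _ _ _ H1 H2 a b hH1 hH2 s hs h1 h2 hc f r hf hf0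
  obtain ⟨j, hj⟩ : ∃ j, s j ≠ 0 := by
    by_contra hcon
    push Not at hcon
    exact hs (funext hcon)
  obtain ⟨Aa, Ab, hA⟩ := Ideal.mem_span_pair.1 (form_mem hj hH1 h1)
  obtain ⟨Ba, Bb, hB⟩ := Ideal.mem_span_pair.1 (form_mem hj hH2 h2)
  obtain ⟨Fa, Fb, hF⟩ := Ideal.mem_span_pair.1 (form_mem hj hf hf0)
  have h3 := cr_comp_ne hj (gr_euler hH1 h1 j) (gr_euler hH2 h2 j) hc
  have h4 := gr_form s j Aa Ab
  have h5 := gr_form s j Ba Bb
  rw [hA] at h4
  rw [hB] at h5
  rw [h4.1, h4.2, h5.1, h5.2] at h3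
  refine ⟨Aa * Bb - Ab * Ba, fun h6 => h3 ?_, ?_⟩
  · rw [map_sub, map_mul, map_mul] at h6
    linear_combination s j ^ 2 * h6
  · rw [Ideal.mem_span_pair]
    refine ⟨Fa * Bb - Fb * Ba, Fb * Aa - Fa * Ab, ?_⟩
    rw [← hA, ← hB, ← hF]
    ring

end Pool.Agent.H42.ND
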