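import Pool.Agent.H84.ND.Targets3

/-!
# MP_70ba79_ag, board `ndc_modules`: row BZN
-/

set_option autoImplicit false

namespace Pool.Agent.H42.ND

open MvPolynomial SC Pool.Agent.H27.LV Pool.Agent.H84.SM Pool.Agent.H84.ND

/-- a linear form which does not vanish at finitely many given points -/
theorem exists_linear {k : Type} [Field k] [IsAlgClosed k] (T : Finset (Fin 3 → k)) :
    ∃ a : Fin 3 → k, ∀ s ∈ T, s ≠ 0 → ∑ i, a i * s i ≠ 0 := by
  classical
  have : Infinite k := IsAlgClosed.instInfinite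
  have h1 : (∏ s ∈ T.filter (· ≠ 0), ∑ i, C (s i) * X i : MvPolynomial (Fin 3) k) ≠ 0 := by
    rw [Finset.prod_ne_zero_iff]
    intro s hs
    rw [Finset.mem_filter] at hs
    intro h0
    apply hs.2
    funext j
    have h2 := congrArg (eval (Pi.single j (1 : k))) h0
    rw [map_sum, map_zero, Finset.sum_eq_single j] at h2
    · simpa using h2
    · intro i _ hi
      rw [map_mul, eval_X, Pi.single_eq_of_ne hi, mul_zero]
    · intro h
      exact absurd (Finset.mem_univ j) h
  have h2 : ∃ a : Fin 3 → k,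
      eval a (∏ s ∈ T.filter (· ≠ 0), ∑ i, C (s i) * X i : MvPolynomial (Fin 3) k) ≠ 0 := by
    by_contra hcon
    push Not at hcon
    exact h1 (MvPolynomial.funext fun a => by rw [hcon a, map_zero])
  obtain ⟨a, ha⟩ := h2
  refine ⟨a, fun s hs hs0 h => ha ?_⟩
  rw [map_prod]
  refine Finset.prod_eq_zero (Finset.mem_filter.2 ⟨hs, hs0⟩) ?_
  rw [map_sum, ← h]
  refine Finset.sum_congr rfl fun i _ => ?_
  rw [map_mul, eval_C, eval_X, mul_comm]

theorem pf_BZN (hBZL : T_BZL) (hBZM : T_BZM) : T_BZN := by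
  intro k _ _ _ H1 H2 a b hH1 hH2 htr T hT f r hf hf0
  classical
  obtain ⟨α, hα'⟩ := exists_linear (insert (Pi.single 0 (1 : k)) T)
  have hα : ∀ s ∈ T, s ≠ 0 → ∑ i, α i * s i ≠ 0 := fun s hs =>
    hα' s (Finset.mem_insert_of_mem hs)
  set ℓ : MvPolynomial (Fin 3) k := ∑ i, C (α i) * X i with hℓ
  have hev : ∀ s : Fin 3 → k, eval s ℓ = ∑ i, α i * s i := by
    intro s
    rw [hℓ, map_sum]
    refine Finset.sum_congr rfl fun i _ => ?_
    rw [map_mul, eval_C, eval_X]
  have hl1 : ℓ.IsHomogeneous 1 := by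
    rw [hℓ]
    exact IsHomogeneous.sum _ _ _ fun i _ => isHomogeneous_C_mul_X _ _
  -- the ideal of the multipliers of `f`
  let Q : Ideal (MvPolynomial (Fin 3) k) :=
    { carrier := {q | q * f ∈ Ideal.span {H1, H2}}
      add_mem' := fun {x y} hx hy => by
        have h : (x + y) * f ∈ Ideal.span {H1, H2} := by
          rw [add_mul]
          exact Ideal.add_mem _ hx hy
        exact h
      zero_mem' := by
        have h : 0 * f ∈ Ideal.span {H1, H2} := by
          rw [zero_mul]
          exact Ideal.zero_mem _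
        exact h
      smul_mem' := fun c x hx => by
        have h : c • x * f ∈ Ideal.span {H1, H2} := by
          rw [smul_eq_mul, mul_assoc]
          exact Ideal.mul_mem_left _ _ hx
        exact h }
  have hQ : ∀ q, q ∈ Q ↔ q * f ∈ Ideal.span {H1, H2} := fun q => Iff.rfl
  have hrad : ℓ ∈ Q.radical := by
    rw [← vanishingIdeal_zeroLocus_eq_radical (K := k), mem_vanishingIdeal_iff]
    intro s hs
    rw [mem_zeroLocus_iff] at hs
    have hs' : ∀ q ∈ Q, eval s q = 0 := fun q hq => hs q hq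
    show eval s ℓ = 0
    by_cases h0 : s = 0
    · rw [h0, hev]
      simp
    · exfalso
      have h1 : eval s H1 = 0 := hs' H1 ((hQ _).2 (Ideal.mul_mem_right _ _
        (Ideal.subset_span (Set.mem_insert _ _))))
      have h2 : eval s H2 = 0 := hs' H2 ((hQ _).2 (Ideal.mul_mem_right _ _
        (Ideal.subset_span (Set.mem_insert_of_mem _ rfl))))
      obtain ⟨h, h3, h4⟩ := hBZM k H1 H2 a b hH1 hH2 s h0 h1 h2 (htr s h0 h1 h2) f r hf
        (hf0 s h0 h1 h2)
      exact h3 (hs' h h4)
  obtain ⟨m, hm⟩ := hrad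
  rw [hQ] at hm
  have hl0 : ℓ ≠ 0 := by
    intro h5
    apply hα' (Pi.single 0 1) (Finset.mem_insert_self _ _) (by simp)
    rw [← hev, h5, map_zero]
  have hcond : ∀ s : Fin 3 → k, s ≠ 0 → eval s ℓ = 0 → eval s H1 = 0 → eval s H2 ≠ 0 := by
    intro s h0 h1 h2 h3
    obtain ⟨s', h4, h5, c, h6⟩ := hT s h0 h2 h3
    have hc : c ≠ 0 := by
      intro hc
      rw [hc, zero_smul] at h6
      exact h0 h6
    apply hα s' h4 h5
    rw [hev, h6] at h1
    have h7 : c * ∑ i, α i * s' i = 0 := by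
      rw [← h1, Finset.mul_sum]
      refine Finset.sum_congr rfl fun i _ => ?_
      rw [Pi.smul_apply, smul_eq_mul]
      ring
    exact (mul_eq_zero.1 h7).resolve_left hc
  induction m with
  | zero => rwa [pow_zero, one_mul] at hm
  | succ m ih =>
    apply ih
    refine hBZL k H1 H2 ℓ a b hH1 hH2 hl1 hl0 hcond _ ?_
    rwa [← mul_assoc, ← pow_succ']

end Pool.Agent.H42.ND
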