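import Pool.Agent.H84.ND.Targets2

/-!
# MP_70ba79_ag, board `ndc_modules`: row LRA
-/

set_option autoImplicit false

namespace Pool.Agent.H42.ND

open MvPolynomial SC Pool.Agent.H27.LV Pool.Agent.H84.SM Pool.Agent.H84.ND

/-- values of weighted homogeneous polynomials in a graded ring -/
theorem wh_mem {σ k B : Type} [Field k] [CommRing B] [Algebra k B] (S : ℕ → Submodule k B)
    (h1 : (1 : B) ∈ S 0) (hm : ∀ i j a b, a ∈ S i → b ∈ S j → a * b ∈ S (i + j))
    (w : σ → ℕ) (F : σ → B) (hF : ∀ j, F j ∈ S (w j)) (n : ℕ)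
    (c : MvPolynomial σ k) (hc : IsWeightedHomogeneous w c n) : aeval F c ∈ S n := by
  classical
  rw [c.as_sum, map_sum]
  refine Submodule.sum_mem _ fun m hmem => ?_
  rw [aeval_monomial, ← Algebra.smul_def]
  refine Submodule.smul_mem _ _ ?_
  have hw : Finsupp.weight w m = n := hc (mem_support_iff.1 hmem)
  rw [← hw, Finsupp.weight_apply, Finsupp.prod, Finsupp.sum]
  have hp : ∀ (j : σ) (t : ℕ), F j ^ t ∈ S (t • w j) := by
    intro j t
    induction t with
    | zero => simpa using h1
    | succ t ih =>
      rw [pow_succ, succ_nsmul]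
      exact hm _ _ _ _ ih (hF j)
  refine Finset.induction_on m.support (by simpa using h1) ?_
  intro a s ha ih
  rw [Finset.prod_insert ha, Finset.sum_insert ha]
  exact hm _ _ _ _ (hp a _) ih

/-- coefficients homogeneous of degree `e` -/
def S1 (k : Type) [Field k] (e : ℕ) : Submodule k (Polynomial (LL k)) where
  carrier := {f | ∀ r, (f.coeff r).IsHomogeneous e}
  add_mem' := by
    intro a b ha hb r
    rw [Polynomial.coeff_add]
    exact (ha r).add (hb r)
  zero_mem' := by
    intro r
    rw [Polynomial.coeff_zero]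
    exact isHomogeneous_zero _ _ _
  smul_mem' := by
    intro c a ha r
    rw [Polynomial.coeff_smul]
    rw [MvPolynomial.smul_eq_C_mul]
    have h := (isHomogeneous_C (Fin 2) c).mul (ha r)
    rwa [zero_add] at h

theorem S1_mul (k : Type) [Field k] (i j : ℕ) (a b : Polynomial (LL k)) (ha : a ∈ S1 k i)
    (hb : b ∈ S1 k j) : a * b ∈ S1 k (i + j) := by
  intro r
  rw [Polynomial.coeff_mul]
  refine IsHomogeneous.sum _ _ _ fun p _ => ?_
  exact (ha p.1).mul (hb p.2)

/-- divisibility of coefficients -/
def S2 (k : Type) [Field k] (i : ℕ) : Submodule k (Polynomial (LL k)) where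
  carrier := {f | ∀ r, (r ≤ i → (X 1 : LL k) ^ (i - r) * X 0 ^ r ∣ f.coeff r) ∧
    (i < r → f.coeff r = 0)}
  add_mem' := by
    intro a b ha hb r
    rw [Polynomial.coeff_add]
    exact ⟨fun h => dvd_add ((ha r).1 h) ((hb r).1 h), fun h => by
      rw [(ha r).2 h, (hb r).2 h, add_zero]⟩
  zero_mem' := by
    intro r
    rw [Polynomial.coeff_zero]
    exact ⟨fun _ => dvd_zero _, fun _ => rfl⟩
  smul_mem' := by
    intro c a ha r
    rw [Polynomial.coeff_smul]
    exact ⟨fun h => by
      rw [MvPolynomial.smul_eq_C_mul]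
      exact ((ha r).1 h).mul_left _, fun h => by rw [(ha r).2 h, smul_zero]⟩

theorem S2_mul (k : Type) [Field k] (i j : ℕ) (a b : Polynomial (LL k)) (ha : a ∈ S2 k i)
    (hb : b ∈ S2 k j) : a * b ∈ S2 k (i + j) := by
  intro r
  rw [Polynomial.coeff_mul]
  refine ⟨fun hr => ?_, fun hr => ?_⟩
  · refine Finset.dvd_sum fun p hp => ?_
    have hp := Finset.HasAntidiagonal.mem_antidiagonal.1 hp
    by_cases h1 : i < p.1
    · rw [(ha p.1).2 h1, zero_mul]
      exact dvd_zero _
    by_cases h2 : j < p.2
    · rw [(hb p.2).2 h2, mul_zero]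
      exact dvd_zero _
    push Not at h1 h2
    have h3 := mul_dvd_mul ((ha p.1).1 h1) ((hb p.2).1 h2)
    have h4 : (X 1 : LL k) ^ (i - p.1) * X 0 ^ p.1 * (X 1 ^ (j - p.2) * X 0 ^ p.2) =
        X 1 ^ (i + j - r) * X 0 ^ r := by
      have h5 : i + j - r = (i - p.1) + (j - p.2) := by omega
      rw [h5, ← hp, pow_add, pow_add]
      ring
    rwa [h4] at h3
  · refine Finset.sum_eq_zero fun p hp => ?_
    have hp := Finset.HasAntidiagonal.mem_antidiagonal.1 hp
    by_cases h1 : i < p.1
    · rw [(ha p.1).2 h1, zero_mul]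
    · rw [(hb p.2).2 (by omega), mul_zero]

/-- the substitution after the multiplication by `s` -/
theorem rho_scale (hS : Pool.Agent.H84.SM.T_SCL) (k : Type) [Field k] [CharZero k]
    (a b n : Fin 3 → k) (e i : ℕ) (c : A2 k) (hc : BH e i c) (h0 : dv c = 0) :
    (Polynomial.C (X 0 : LL k)) ^ i * rho a b n c =
      (aeval (Sum.elim (fun j => Polynomial.C (C (a j) * X 0 + C (b j) * X 1))
        (fun j => Polynomial.C (- (C (b j) * X 1)) +
          Polynomial.C (C (n j) * X 0) * Polynomial.X)) : A2 k →ₐ[k] Polynomial (LL k)) c := by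
  have hI : Inv (Polynomial.C c) := by
    intro j
    rw [Polynomial.coeff_C]
    split_ifs
    · exact h0
    · exact map_zero _
  have hB : BHN e i (Polynomial.C c) := by
    intro j
    rw [Polynomial.coeff_C]
    by_cases hj : j = 0
    · subst hj
      rw [if_pos rfl]
      exact ⟨fun _ => by simpa using hc, fun h => absurd h (by omega)⟩
    · rw [if_neg hj]
      exact ⟨fun _ => ⟨isWeightedHomogeneous_zero k _ _, isWeightedHomogeneous_zero k _ _⟩,
        fun _ => rfl⟩
  have h := hS k e i (Polynomial.C c) hI hB (Polynomial (LL k))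
    (fun j => Polynomial.C (C (a j) * X 0 + C (b j) * X 1))
    (fun j => Polynomial.C (C (a j)) + Polynomial.C (C (n j)) * Polynomial.X) 0 1
    (Polynomial.C (X 0 : LL k)) (-1)
  have e1 : ∀ (x y : Fin 3 → Polynomial (LL k)) (w : Polynomial (LL k)),
      ev x y w (Polynomial.C c) = (aeval (Sum.elim x y) : A2 k →ₐ[k] Polynomial (LL k)) c := by
    intro x y w
    rw [ev, Polynomial.coe_eval₂RingHom, Polynomial.eval₂_C]
    rfl
  rw [e1, e1] at h
  have e2 : (fun j => (1 : Polynomial (LL k)) * Polynomial.C (C (a j) * X 0 + C (b j) * X 1)) =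
      (fun j => Polynomial.C (C (a j) * X 0 + C (b j) * X 1 : LL k)) := by
    funext j
    rw [one_mul]
  have e3 : (fun j => (1 : Polynomial (LL k)) * Polynomial.C (X 0 : LL k) *
      (Polynomial.C (C (a j)) + Polynomial.C (C (n j)) * Polynomial.X) +
      -1 * Polynomial.C (C (a j) * X 0 + C (b j) * X 1)) =
      (fun j => Polynomial.C (- (C (b j) * X 1) : LL k) +
          Polynomial.C (C (n j) * X 0) * Polynomial.X) := by
    funext j
    rw [map_add, map_neg, map_mul Polynomial.C, map_mul Polynomial.C, map_mul Polynomial.C]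
    ring
  rw [e2, e3, one_pow, one_mul] at h
  exact h.symm

theorem pf_LRA (hS : Pool.Agent.H84.SM.T_SCL) : T_LRA := by
  intro k _ _ a b n e i c hc h0 r hr
  have hh : rho a b n c ∈ S1 k e := by
    refine wh_mem (S1 k) ?_ (S1_mul k) wx _ ?_ e c hc.1
    · intro r
      rw [Polynomial.coeff_one]
      split_ifs
      · exact isHomogeneous_one _ _
      · exact isHomogeneous_zero _ _ _
    · rintro (j | j)
      · intro r
        simp only [Sum.elim_inl, wx]
        rw [Polynomial.coeff_C]
        split_ifs
        · have h1 := (isHomogeneous_C (Fin 2) (a j)).mul (isHomogeneous_X k (0 : Fin 2))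
          have h2 := (isHomogeneous_C (Fin 2) (b j)).mul (isHomogeneous_X k (1 : Fin 2))
          rw [zero_add] at h1 h2
          exact h1.add h2
        · exact isHomogeneous_zero _ _ _
      · intro r
        simp only [Sum.elim_inr, wx]
        rw [Polynomial.coeff_add, Polynomial.coeff_C, Polynomial.coeff_C_mul, Polynomial.coeff_X]
        refine IsHomogeneous.add ?_ ?_
        · split_ifs
          · exact isHomogeneous_C _ _
          · exact isHomogeneous_zero _ _ _
        · split_ifs
          · rw [mul_one]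
            exact isHomogeneous_C _ _
          · rw [mul_zero]
            exact isHomogeneous_zero _ _ _
  have hs : (Polynomial.C (X 0 : LL k)) ^ i * rho a b n c ∈ S2 k i := by
    rw [rho_scale hS k a b n e i c hc h0]
    refine wh_mem (S2 k) ?_ (S2_mul k) wy _ ?_ i c hc.2
    · intro r
      refine ⟨fun h => ?_, fun h => ?_⟩
      · have h0' : r = 0 := by omega
        subst h0'
        simp
      · rw [Polynomial.coeff_one, if_neg (by omega)]
    · rintro (j | j)
      · intro r
        simp only [Sum.elim_inl, wy]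
        refine ⟨fun h => ?_, fun h => ?_⟩
        · have h0' : r = 0 := by omega
          subst h0'
          simp
        · rw [Polynomial.coeff_C, if_neg (by omega)]
      · intro r
        simp only [Sum.elim_inr, wy]
        rw [Polynomial.coeff_add, Polynomial.coeff_C, Polynomial.coeff_C_mul, Polynomial.coeff_X]
        refine ⟨fun h => ?_, fun h => ?_⟩
        · by_cases h0' : r = 0
          · subst h0'
            simp
          · have h1' : r = 1 := by omega
            subst h1'
            simp
        · rw [if_neg (by omega), if_neg (by omega), mul_zero, add_zero]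
  have hco : ∀ r, ((Polynomial.C (X 0 : LL k)) ^ i * rho a b n c).coeff r =
      (X 0 : LL k) ^ i * (rho a b n c).coeff r := by
    intro r
    rw [← Polynomial.C_pow, Polynomial.coeff_C_mul]
  refine ⟨hh r, ?_, ?_⟩
  · have h1 := (hs r).1 hr
    rw [hco] at h1
    have h2 : (X 1 : LL k) ^ (i - r) ∣ (X 0 : LL k) ^ i * (rho a b n c).coeff r :=
      (Dvd.intro _ rfl).trans h1
    have hp : Prime (X 1 : LL k) := X_prime
    refine hp.pow_dvd_of_dvd_mul_left _ ?_ h2
    intro h3
    have h4 := hp.dvd_of_dvd_pow h3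
    rw [X_dvd_X] at h4
    exact absurd h4 (by decide)
  · intro r hr
    have h1 := (hs r).2 hr
    rw [hco] at h1
    exact (mul_eq_zero.1 h1).resolve_left (pow_ne_zero _ (X_ne_zero _))

end Pool.Agent.H42.ND
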