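import Pool.Agent.H84.ND.Targets2
import Pool.Agent.H96.SM.IRR
import Pool.Agent.H61.SM.Cm
import Pool.Agent.H42.ND.LRA

/-!
# MP_70ba79_ag, board `ndc_modules`: row LRB
-/

set_option autoImplicit false

namespace Pool.Agent.H42.ND

open MvPolynomial SC Pool.Agent.H27.LV Pool.Agent.H84.SM Pool.Agent.H84.ND

section Line

variable {k : Type} [Field k]

/-- coordinates on the line -/
noncomputable def xL (a b : Fin 3 → k) : Fin 3 → LL k := fun i => C (a i) * X 0 + C (b i) * X 1

theorem gL_eq (G : MvPolynomial (Fin 3) k) (a b : Fin 3 → k) : gL G a b = aeval (xL a b) G := rfl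

theorem eval_xL (a b : Fin 3 → k) (v : Fin 2 → k) (P : MvPolynomial (Fin 3) k) :
    eval v (aeval (xL a b) P) = eval (v 0 • a + v 1 • b) P := by
  induction P using MvPolynomial.induction_on with
  | C c => simp
  | add p q hp hq => rw [map_add, map_add, map_add, hp, hq]
  | mul_X p i hp =>
    rw [map_mul, map_mul, map_mul, hp, aeval_X, eval_X]
    have h : eval v (xL a b i) = (v 0 • a + v 1 • b) i := by
      rw [xL]
      simp only [map_add, map_mul, eval_C, eval_X, Pi.add_apply, Pi.smul_apply, smul_eq_mul]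
      ring
    rw [h]

theorem pderiv_xL (a b : Fin 3 → k) (P : MvPolynomial (Fin 3) k) :
    pderiv 0 (aeval (xL a b) P) = ∑ i, aeval (xL a b) (pderiv i P) * C (a i) := by
  induction P using MvPolynomial.induction_on with
  | C c => simp
  | add p q hp hq => simp only [map_add, hp, hq, add_mul, Finset.sum_add_distrib]
  | mul_X p j hp =>
    rw [map_mul, aeval_X, Derivation.leibniz, hp]
    have h1 : pderiv 0 (xL a b j) = C (a j) := by
      rw [xL, map_add, Derivation.leibniz, Derivation.leibniz]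
      simp [pderiv_X]
    rw [h1]
    have h2 : ∀ i, aeval (xL a b) (pderiv i (p * X j)) * C (a i) =
        xL a b j * (aeval (xL a b) (pderiv i p) * C (a i)) +
          aeval (xL a b) p * (if i = j then C (a i) else 0) := by
      intro i
      rw [Derivation.leibniz, pderiv_X]
      simp only [smul_eq_mul, map_add, map_mul, aeval_X]
      by_cases h : i = j
      · subst h
        rw [Pi.single_eq_same, if_pos rfl, map_one]
        ring
      · rw [Pi.single_eq_of_ne (Ne.symm h), if_neg h, map_zero]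
        ring
    rw [Finset.sum_congr rfl fun i _ => h2 i, Finset.sum_add_distrib, ← Finset.mul_sum,
      ← Finset.mul_sum]
    rw [Finset.sum_ite_eq' Finset.univ j (fun i => (C (a i) : LL k)), if_pos (Finset.mem_univ _)]
    simp only [smul_eq_mul]
    ring

theorem eval_pol (x : k) (H : LL k) :
    (aeval (![Polynomial.X, 1] : Fin 2 → Polynomial k) H).eval x = eval ![x, 1] H := by
  induction H using MvPolynomial.induction_on with
  | C c => simp
  | add p q hp hq => rw [map_add, map_add, Polynomial.eval_add, hp, hq]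
  | mul_X p i hp =>
    rw [map_mul, map_mul, Polynomial.eval_mul, hp, aeval_X, eval_X]
    fin_cases i
    · simp
    · simp

theorem exists_zero [IsAlgClosed k] {H : LL k} {h : ℕ} (hH : H.IsHomogeneous h) (h1 : 1 ≤ h)
    (h2 : eval ![1, 0] H ≠ 0) : ∃ v : Fin 2 → k, v ≠ 0 ∧ eval v H = 0 := by
  classical
  have h3 : (aeval (![Polynomial.X, 1] : Fin 2 → Polynomial k) H).coeff h = eval ![1, 0] H := by
    rw [aeval_def, eval₂_eq', eval_eq', Polynomial.finsetSum_coeff]
    refine Finset.sum_congr rfl fun m hm => ?_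
    have h4 : m 0 + m 1 = h := by
      have := hH (mem_support_iff.1 hm)
      rw [Finsupp.weight_apply, Finsupp.sum_fintype _ _ (by simp)] at this
      simpa [Fin.sum_univ_two] using this
    rw [Fin.prod_univ_two, Fin.prod_univ_two]
    simp only [Matrix.cons_val_zero, Matrix.cons_val_one, one_pow, mul_one, one_mul,
      Polynomial.algebraMap_apply, Algebra.algebraMap_self, RingHom.id_apply]
    rw [Polynomial.coeff_C_mul, Polynomial.coeff_X_pow]
    by_cases h5 : m 1 = 0
    · rw [if_pos (by omega), h5, pow_zero]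
    · rw [if_neg (by omega), zero_pow h5]
  have h5 : (aeval (![Polynomial.X, 1] : Fin 2 → Polynomial k) H).degree ≠ 0 := by
    intro h6
    have h7 := Polynomial.le_degree_of_ne_zero (h3.trans_ne h2)
    rw [h6] at h7
    have h8 : h ≤ 0 := by exact_mod_cast h7
    omega
  obtain ⟨x, hx⟩ := IsAlgClosed.exists_root _ h5
  refine ⟨![x, 1], fun h => ?_, ?_⟩
  · have := congrFun h 1
    simp at this
  · rw [← eval_pol]
    exact hx

theorem gL_hom {G : MvPolynomial (Fin 3) k} {d : ℕ} (hG : G.IsHomogeneous d) (a b : Fin 3 → k) :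
    (gL G a b).IsHomogeneous d := by
  have h := hG.aeval (xL a b) (n := 1) (fun i => by
    rw [xL]
    exact (isHomogeneous_C_mul_X _ _).add (isHomogeneous_C_mul_X _ _))
  rw [one_mul] at h
  exact h

theorem gL_10 (G : MvPolynomial (Fin 3) k) (a b : Fin 3 → k) :
    eval ![1, 0] (gL G a b) = eval a G := by
  rw [gL_eq, eval_xL]
  congr 1
  simp

theorem comb_ne {a b : Fin 3 → k} (h : cr a b ≠ 0) {v : Fin 2 → k} (hv : v ≠ 0) :
    v 0 • a + v 1 • b ≠ 0 := by
  intro h0
  apply h
  have h1 : ∀ j, v 0 * a j + v 1 * b j = 0 := fun j => by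
    have := congrFun h0 j
    simpa using this
  funext i
  rw [Pi.zero_apply, cr]
  by_cases h2 : v 0 = 0
  · have h3 : v 1 ≠ 0 := by
      intro h3
      apply hv
      funext j
      fin_cases j
      · exact h2
      · exact h3
    have h4 : v 1 * (a (i + 1) * b (i + 2) - a (i + 2) * b (i + 1)) = 0 := by
      linear_combination a (i + 1) * h1 (i + 2) - a (i + 2) * h1 (i + 1)
    exact (mul_eq_zero.1 h4).resolve_left h3
  · have h4 : v 0 * (a (i + 1) * b (i + 2) - a (i + 2) * b (i + 1)) = 0 := by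
      linear_combination b (i + 2) * h1 (i + 1) - b (i + 1) * h1 (i + 2)
    exact (mul_eq_zero.1 h4).resolve_left h2

/-- zeros of the factors of `G` on a transversal line -/
theorem factor_zero [IsAlgClosed k] {G : MvPolynomial (Fin 3) k} {d : ℕ} (hG : G.IsHomogeneous d)
    {a b : Fin 3 → k} (hT : Trl G a b) {H : LL k} (hH : Irreducible H) (hdvd : H ∣ gL G a b) :
    ∃ v : Fin 2 → k, eval v H = 0 ∧ dp (gr G (v 0 • a + v 1 • b)) a ≠ 0 := by
  obtain ⟨q, hq⟩ := hdvd
  have h0 : eval ![1, 0] (gL G a b) ≠ 0 := by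
    rw [gL_10]
    exact hT.off
  have hg : gL G a b ≠ 0 := fun h => h0 (by rw [h, map_zero])
  have hq0 : q ≠ 0 := fun h => hg (by rw [hq, h, mul_zero])
  obtain ⟨e1, e2, -, h1, -⟩ := Pool.Agent.H96.SM.homog_mul (hq ▸ gL_hom hG a b) hH.ne_zero hq0
  have h2 : eval ![1, 0] H ≠ 0 := fun h => h0 (by rw [hq, map_mul, h, zero_mul])
  have h3 : 1 ≤ e1 := by
    by_contra h3
    have h4 : e1 = 0 := by omega
    subst h4
    have h5 := (totalDegree_zero_iff_isHomogeneous (Fin 2)).2 h1
    rw [totalDegree_eq_zero_iff_eq_C] at h5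
    apply hH.not_isUnit
    rw [h5]
    refine IsUnit.map C ?_
    rw [isUnit_iff_ne_zero]
    intro h6
    rw [h6, map_zero] at h5
    exact hH.ne_zero h5
  obtain ⟨v, hv, hv0⟩ := exists_zero h1 h3 h2
  refine ⟨v, hv0, hT.tr (v 0) (v 1) ?_ (comb_ne hT.ind hv)⟩
  rw [← eval_xL, ← gL_eq, hq, map_mul, hv0, zero_mul]

/-- derivative of `G` in the direction `a`, on the line -/
noncomputable def la (G : MvPolynomial (Fin 3) k) (a b : Fin 3 → k) : LL k :=
  ∑ i, aeval (xL a b) (pderiv i G) * C (a i)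

theorem eval_la (G : MvPolynomial (Fin 3) k) (a b : Fin 3 → k) (v : Fin 2 → k) :
    eval v (la G a b) = dp (gr G (v 0 • a + v 1 • b)) a := by
  rw [la, dp, map_sum]
  refine Finset.sum_congr rfl fun i _ => ?_
  rw [map_mul, eval_xL, eval_C, gr]
  rfl

theorem not_dvd_la [IsAlgClosed k] {G : MvPolynomial (Fin 3) k} {d : ℕ} (hG : G.IsHomogeneous d)
    {a b : Fin 3 → k} (hT : Trl G a b) {H : LL k} (hH : Irreducible H) (hdvd : H ∣ gL G a b) :
    ¬ H ∣ la G a b := by
  rintro ⟨q, hq⟩
  obtain ⟨v, h1, h2⟩ := factor_zero hG hT hH hdvd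
  apply h2
  rw [← eval_la, hq, map_mul, h1, zero_mul]

theorem gL_sqf [IsAlgClosed k] {G : MvPolynomial (Fin 3) k} {d : ℕ} (hG : G.IsHomogeneous d)
    {a b : Fin 3 → k} (hT : Trl G a b) : Squarefree (gL G a b) ∧ ¬ (X 1 : LL k) ∣ gL G a b ∧
    gL G a b ≠ 0 := by
  have h0 : eval ![1, 0] (gL G a b) ≠ 0 := by
    rw [gL_10]
    exact hT.off
  have hg : gL G a b ≠ 0 := fun h => h0 (by rw [h, map_zero])
  refine ⟨?_, ?_, hg⟩
  · rw [squarefree_iff_irreducible_sq_not_dvd_of_ne_zero hg]
    rintro H hH ⟨q, hq⟩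
    apply not_dvd_la hG hT hH ⟨H * q, by rw [hq]; ring⟩
    rw [la, ← pderiv_xL, ← gL_eq, hq, Derivation.leibniz, Derivation.leibniz]
    simp only [smul_eq_mul]
    refine ⟨H * pderiv 0 q + q * pderiv 0 H + q * pderiv 0 H, by ring⟩
  · rintro ⟨q, hq⟩
    apply h0
    rw [hq, map_mul, eval_X]
    simp

end Line

/-! ### The identity -/

section Ident

variable {k : Type} [Field k]

theorem scl_c (hS : Pool.Agent.H84.SM.T_SCL) [CharZero k] {e i : ℕ} {c : A2 k} (hc : BH e i c)
    (h0 : dv c = 0) {L : Type} [CommRing L] [Algebra k L] (x y : Fin 3 → L) (μ η : L) :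
    (aeval (Sum.elim x (fun j => μ * y j + η * x j)) : A2 k →ₐ[k] L) c =
      μ ^ i * (aeval (Sum.elim x y) : A2 k →ₐ[k] L) c := by
  have hI : Inv (Polynomial.C c) := by
    intro j
    rw [Polynomial.coeff_C]
    split_ifs
    · exact h0
    · exact map_zero _
  have hB : BHN e i (Polynomial.C c) := by
    intro j
    rw [Polynomial.coeff_C]
    by_cases hj : j = 0
    · subst hj
      rw [if_pos rfl]
      exact ⟨fun _ => by simpa using hc, fun h => absurd h (by omega)⟩
    · rw [if_neg hj]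
      exact ⟨fun _ => ⟨isWeightedHomogeneous_zero k _ _, isWeightedHomogeneous_zero k _ _⟩,
        fun _ => rfl⟩
  have h := hS k e i (Polynomial.C c) hI hB L x y 0 1 μ η
  have e1 : ∀ (x y : Fin 3 → L) (w : L),
      ev x y w (Polynomial.C c) = (aeval (Sum.elim x y) : A2 k →ₐ[k] L) c := by
    intro x y w
    rw [ev, Polynomial.coe_eval₂RingHom, Polynomial.eval₂_C]
    rfl
  rw [e1, e1] at h
  have e2 : (fun j => 1 * x j) = x := funext fun j => one_mul _
  have e3 : (fun j => 1 * μ * y j + η * x j) = fun j => μ * y j + η * x j := by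
    funext j
    rw [one_mul]
  rw [e2, e3, one_pow, one_mul] at h
  exact h

theorem sum3 {L : Type} [CommRing L] (f : Fin 3 → L) (l : Fin 3) :
    ∑ i, f i = f l + f (l + 1) + f (l + 2) := by
  rw [Fin.sum_univ_three]
  fin_cases l
  · rfl
  · show f 0 + f 1 + f 2 = f 1 + f 2 + f 0
    ring
  · show f 0 + f 1 + f 2 = f 2 + f 0 + f 1
    ring

theorem euler {G : MvPolynomial (Fin 3) k} {d : ℕ} (hG : G.IsHomogeneous d) {L : Type}
    [CommRing L] [Algebra k L] (x : Fin 3 → L) : dp (gr G x) x = d * aeval x G := by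
  have h := congrArg (aeval x) hG.sum_X_mul_pderiv
  rw [map_sum, map_nsmul, nsmul_eq_mul] at h
  rw [← h, dp]
  refine Finset.sum_congr rfl fun i _ => ?_
  rw [map_mul, aeval_X, gr, mul_comm]

/-- the projection of `y` -/
noncomputable def pq (G : MvPolynomial (Fin 3) k) (d : ℕ) {L : Type} [CommRing L] [Algebra k L]
    (x y : Fin 3 → L) : Fin 3 → L :=
  fun j => (d : L) * aeval x G * y j - dp (gr G x) y * x j

theorem dp_pq {G : MvPolynomial (Fin 3) k} {d : ℕ} (hG : G.IsHomogeneous d) {L : Type}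
    [CommRing L] [Algebra k L] (x y : Fin 3 → L) : dp (gr G x) (pq G d x y) = 0 := by
  have h : dp (gr G x) (pq G d x y) =
      (d : L) * aeval x G * dp (gr G x) y - dp (gr G x) y * dp (gr G x) x := by
    rw [dp, dp, dp, Finset.mul_sum, Finset.mul_sum, ← Finset.sum_sub_distrib]
    refine Finset.sum_congr rfl fun i _ => ?_
    rw [pq]
    simp only [dp]
    ring
  rw [h, euler hG]
  ring

theorem ident (hS : Pool.Agent.H84.SM.T_SCL) [CharZero k] {G : MvPolynomial (Fin 3) k} {d : ℕ}
    (hG : G.IsHomogeneous d) {e i : ℕ} {c : A2 k} (hc : BH e i c)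
    (h0 : dv c = 0) (l : Fin 3) (M : ℕ) (Q : B2 k)
    (hQ : (aeval (Sum.elim xb (chy G l)) : A2 k →ₐ[k] B2 k) c = aeval xb G ^ M * Q)
    {L : Type} [CommRing L] [Algebra k L] (x y : Fin 3 → L) :
    (gr G x l * ((d : L) * aeval x G)) ^ i * (aeval (Sum.elim x y) : A2 k →ₐ[k] L) c =
      aeval x G ^ M * (aeval (Sum.elim x ![pq G d x y (l + 1), pq G d x y (l + 2)]) :
        B2 k →ₐ[k] L) Q := by
  set φ : B2 k →ₐ[k] L := aeval (Sum.elim x ![pq G d x y (l + 1), pq G d x y (l + 2)]) with hφ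
  have hx : ∀ j, φ (xb j) = x j := fun j => by rw [hφ, xb, aeval_X, Sum.elim_inl]
  have hq0 : φ (qb 0) = pq G d x y (l + 1) := by rw [hφ, qb, aeval_X]; rfl
  have hq1 : φ (qb 1) = pq G d x y (l + 2) := by rw [hφ, qb, aeval_X]; rfl
  have hp : ∀ P : MvPolynomial (Fin 3) k, φ (aeval xb P) = aeval x P := by
    intro P
    rw [comp_aeval_apply]
    congr 1
    congr 1
    funext j
    exact hx j
  have hg : ∀ j, φ (gr G xb j) = gr G x j := fun j => by rw [gr, hp, gr]
  have h1 := congrArg φ hQ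
  rw [map_mul, map_pow, hp, comp_aeval_apply] at h1
  rw [← h1]
  have h2 : (fun j => φ (Sum.elim xb (chy G l) j)) = Sum.elim x (fun j =>
      gr G x l * ((d : L) * aeval x G) * y j + (- (gr G x l * dp (gr G x) y)) * x j) := by
    funext j
    rcases j with j | j
    · exact hx j
    · simp only [Sum.elim_inr]
      have h3 : gr G x l * ((d : L) * aeval x G) * y j + (- (gr G x l * dp (gr G x) y)) * x j =
          gr G x l * pq G d x y j := by
        rw [pq]
        ring
      rw [h3, chy]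
      have h4 : ∀ l j : Fin 3, j = l ∨ j = l + 1 ∨ j = l + 2 := by decide
      have h5 : ∀ l : Fin 3, l + 1 ≠ l := by decide
      have h6 : ∀ l : Fin 3, l + 2 ≠ l := by decide
      have h7 : ∀ l : Fin 3, l + 2 ≠ l + 1 := by decide
      rcases h4 l j with h | h | h
      · subst h
        rw [if_pos rfl, map_neg, map_add, map_mul, map_mul, hg, hg, hq0, hq1]
        have h8 := dp_pq hG x y
        rw [dp, sum3 _ j] at h8
        linear_combination -h8
      · subst h
        rw [if_neg (h5 l), if_pos rfl, map_mul, hg, hq0]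
      · subst h
        rw [if_neg (h6 l), if_neg (h7 l), map_mul, hg, hq1]
  rw [h2, scl_c hS hc h0]

end Ident

/-! ### Expansion in powers of `G` -/

section Expand

variable {k : Type} [Field k]

/-- sums of the products `g ^ m λ ^ (i - m) f` with `deg f ≤ m ≤ i` -/
noncomputable def S4 (g : LL k) (lam : Polynomial (LL k)) (i : ℕ) : Submodule k (Polynomial (LL k)) :=
  Submodule.span k {x | ∃ (m : ℕ) (f : Polynomial (LL k)), m ≤ i ∧ f.natDegree ≤ m ∧
    x = Polynomial.C g ^ m * lam ^ (i - m) * f}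

theorem S4_mul (g : LL k) (lam : Polynomial (LL k)) (i j : ℕ) (a b : Polynomial (LL k))
    (ha : a ∈ S4 g lam i) (hb : b ∈ S4 g lam j) : a * b ∈ S4 g lam (i + j) := by
  refine Submodule.span_induction (p := fun a _ => a * b ∈ S4 g lam (i + j)) ?_ ?_ ?_ ?_ ha
  · rintro x ⟨m, f, h1, h2, rfl⟩
    refine Submodule.span_induction
      (p := fun b _ => Polynomial.C g ^ m * lam ^ (i - m) * f * b ∈ S4 g lam (i + j)) ?_ ?_ ?_ ?_ hb
    · rintro y ⟨m', f', h3, h4, rfl⟩
      refine Submodule.subset_span ⟨m + m', f * f', by omega,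
        Polynomial.natDegree_mul_le.trans (by omega), ?_⟩
      have h5 : i + j - (m + m') = (i - m) + (j - m') := by omega
      rw [h5, pow_add, pow_add]
      ring
    · rw [mul_zero]
      exact Submodule.zero_mem _
    · intro y z _ _ hy hz
      rw [mul_add]
      exact Submodule.add_mem _ hy hz
    · intro c y _ hy
      rw [mul_smul_comm]
      exact Submodule.smul_mem _ _ hy
  · rw [zero_mul]
    exact Submodule.zero_mem _
  · intro y z _ _ hy hz
    rw [add_mul]
    exact Submodule.add_mem _ hy hz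
  · intro c y _ hy
    rw [smul_mul_assoc]
    exact Submodule.smul_mem _ _ hy

/-- reduction modulo a power of a factor of `g` -/
theorem S4_red {g π : LL k} {lam : Polynomial (LL k)} (hl : lam.natDegree ≤ 1) (hπ : π ∣ g)
    {i r : ℕ} (hr : r ≤ i) (_h1 : 1 ≤ r) {P : Polynomial (LL k)} (hP : P ∈ S4 g lam i) :
    ∃ R : Polynomial (LL k), (∀ j, r ≤ j → R.coeff j = 0) ∧
      Polynomial.C (π ^ r) ∣ P - lam ^ (i - r + 1) * R := by
  refine Submodule.span_induction (p := fun P _ => ∃ R : Polynomial (LL k),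
      (∀ j, r ≤ j → R.coeff j = 0) ∧ Polynomial.C (π ^ r) ∣ P - lam ^ (i - r + 1) * R)
    ?_ ?_ ?_ ?_ hP
  · rintro x ⟨m, f, h2, h3, rfl⟩
    by_cases h4 : r ≤ m
    · refine ⟨0, fun j _ => Polynomial.coeff_zero _, ?_⟩
      rw [mul_zero, sub_zero, mul_assoc]
      refine Dvd.dvd.mul_right ?_ _
      rw [← Polynomial.C_pow]
      exact map_dvd Polynomial.C ((pow_dvd_pow π h4).trans (pow_dvd_pow_of_dvd hπ m))
    · push Not at h4
      refine ⟨Polynomial.C g ^ m * lam ^ (r - 1 - m) * f, fun j hj => ?_, ?_⟩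
      · apply Polynomial.coeff_eq_zero_of_natDegree_lt
        have h5 : (Polynomial.C g ^ m * lam ^ (r - 1 - m) * f).natDegree ≤ 0 + (r - 1 - m) + m := by
          refine Polynomial.natDegree_mul_le.trans (add_le_add ?_ h3)
          refine Polynomial.natDegree_mul_le.trans (add_le_add ?_ ?_)
          · rw [← Polynomial.C_pow, Polynomial.natDegree_C]
          · refine (Polynomial.natDegree_pow_le_of_le _ hl).trans (by omega)
        omega
      · have h5 : Polynomial.C g ^ m * lam ^ (i - m) * f -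
            lam ^ (i - r + 1) * (Polynomial.C g ^ m * lam ^ (r - 1 - m) * f) = 0 := by
          have h6 : i - m = (i - r + 1) + (r - 1 - m) := by omega
          rw [h6, pow_add]
          ring
        rw [h5]
        exact dvd_zero _
  · exact ⟨0, fun j _ => Polynomial.coeff_zero _, by rw [mul_zero, sub_zero]; exact dvd_zero _⟩
  · rintro x y _ _ ⟨R, h2, h3⟩ ⟨R', h4, h5⟩
    refine ⟨R + R', fun j hj => by rw [Polynomial.coeff_add, h2 j hj, h4 j hj, add_zero], ?_⟩
    have h6 : x + y - lam ^ (i - r + 1) * (R + R') =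
        (x - lam ^ (i - r + 1) * R) + (y - lam ^ (i - r + 1) * R') := by ring
    rw [h6]
    exact dvd_add h3 h5
  · rintro c x _ ⟨R, h2, h3⟩
    refine ⟨c • R, fun j hj => by rw [Polynomial.coeff_smul, h2 j hj, smul_zero], ?_⟩
    rw [mul_smul_comm, ← smul_sub]
    exact h3.trans ⟨algebraMap k _ c, by rw [Algebra.smul_def, mul_comm]⟩

/-- the first coefficient -/
theorem S4_fst {g π : LL k} {lam : Polynomial (LL k)} (hl : lam.natDegree ≤ 1) (hπ : π ∣ g)
    (hp : Prime π) (h0 : ¬ π ∣ lam.coeff 0)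
    {i r : ℕ} (hr : r ≤ i) {P : Polynomial (LL k)} (hP : P ∈ S4 g lam i)
    (hv : ∀ r', r' < r → P.coeff r' = 0) : π ^ r ∣ P.coeff r := by
  rcases Nat.eq_zero_or_pos r with rfl | h1
  · rw [pow_zero]
    exact one_dvd _
  obtain ⟨R, h2, h3⟩ := S4_red hl hπ hr h1 hP
  have h4 : ∀ j, π ^ r ∣ R.coeff j := by
    intro j
    induction j using Nat.strong_induction_on with
    | _ j ih =>
      by_cases hj : r ≤ j
      · rw [h2 j hj]
        exact dvd_zero _
      push Not at hj
      have h5 := (Polynomial.C_dvd_iff_dvd_coeff _ _).1 h3 j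
      rw [Polynomial.coeff_sub, hv j hj, zero_sub, dvd_neg, Polynomial.coeff_mul] at h5
      have h6 : (0, j) ∈ Finset.HasAntidiagonal.antidiagonal j := by
        rw [Finset.HasAntidiagonal.mem_antidiagonal, zero_add]
      rw [← Finset.add_sum_erase _ _ h6] at h5
      have h7 : π ^ r ∣ ∑ x ∈ (Finset.HasAntidiagonal.antidiagonal j).erase (0, j),
          (lam ^ (i - r + 1)).coeff x.1 * R.coeff x.2 := by
        refine Finset.dvd_sum fun x hx => ?_
        rw [Finset.mem_erase, Finset.HasAntidiagonal.mem_antidiagonal] at hx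
        refine (ih x.2 ?_).mul_left _
        rcases Nat.eq_zero_or_pos x.1 with h | h
        · exfalso
          apply hx.1
          rw [Prod.ext_iff]
          exact ⟨h, by show x.2 = j; omega⟩
        · omega
      have h8 := (dvd_add_left h7).1 h5
      have h9 : (lam ^ (i - r + 1)).coeff 0 = lam.coeff 0 ^ (i - r + 1) := by
        rw [Polynomial.coeff_zero_eq_eval_zero, Polynomial.eval_pow,
          ← Polynomial.coeff_zero_eq_eval_zero]
      rw [h9] at h8
      exact hp.pow_dvd_of_dvd_mul_left _ (fun h => h0 (hp.dvd_of_dvd_pow h)) h8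
  have h5 : Polynomial.C (π ^ r) ∣ P := by
    have h6 : Polynomial.C (π ^ r) ∣ lam ^ (i - r + 1) * R :=
      ((Polynomial.C_dvd_iff_dvd_coeff _ _).2 h4).mul_left _
    exact (dvd_sub_left h6).1 h3
  exact (Polynomial.C_dvd_iff_dvd_coeff _ _).1 h5 r

end Expand

/-- a power of a squarefree element divides `h` if the powers of its prime factors do -/
theorem sqf_pow_dvd {R : Type} [CommRing R] [IsDomain R] [UniqueFactorizationMonoid R] (M : ℕ)
    (h : R) (g : R) (hg : g ≠ 0) (hs : Squarefree g) (H : ∀ π, Prime π → π ∣ g → π ^ M ∣ h) :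
    g ^ M ∣ h := by
  revert hs H hg
  induction g using UniqueFactorizationMonoid.induction_on_prime with
  | h₁ => intro hg; exact absurd rfl hg
  | h₂ x hx =>
    intro _ _ _
    exact (hx.pow M).dvd
  | h₃ a p ha hp ih =>
    intro _ hs H
    obtain ⟨q, hq⟩ := ih ha (hs.squarefree_of_dvd (dvd_mul_left a p))
      fun π h1 h2 => H π h1 (h2.mul_left p)
    have h1 : p ^ M ∣ a ^ M * q := by
      rw [← hq]
      exact H p hp (dvd_mul_right p a)
    have h2 : ¬ p ∣ a ^ M := by
      intro h2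
      obtain ⟨b, hb⟩ := hp.dvd_of_dvd_pow h2
      exact hp.not_isUnit (hs p ⟨b, by rw [hb, mul_assoc]⟩)
    obtain ⟨q', hq'⟩ := hp.pow_dvd_of_dvd_mul_left M h2 h1
    exact ⟨q', by rw [hq, hq', mul_pow]; ring⟩

section Main

variable {k : Type} [Field k]

/-- weights of the variables `q` -/
def wq : Fin 3 ⊕ Fin 2 → ℕ := Sum.elim (fun _ => 0) (fun _ => 1)

theorem whs_one {σ : Type} (w : σ → ℕ) :
    (1 : MvPolynomial σ k) ∈ weightedHomogeneousSubmodule k w 0 :=
  (mem_weightedHomogeneousSubmodule k w _ _).2 (isWeightedHomogeneous_one k w)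

theorem whs_mul {σ : Type} (w : σ → ℕ) (i j : ℕ) (a b : MvPolynomial σ k)
    (ha : a ∈ weightedHomogeneousSubmodule k w i) (hb : b ∈ weightedHomogeneousSubmodule k w j) :
    a * b ∈ weightedHomogeneousSubmodule k w (i + j) := by
  rw [mem_weightedHomogeneousSubmodule] at *
  exact ha.mul hb

theorem xb_hom (P : MvPolynomial (Fin 3) k) :
    IsWeightedHomogeneous wq (aeval (xb (k := k)) P) 0 := by
  rw [← mem_weightedHomogeneousSubmodule]
  refine wh_mem (weightedHomogeneousSubmodule k wq) (whs_one wq) (whs_mul wq) (fun _ => 0) xb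
    (fun j => ?_) 0 P ?_
  · rw [mem_weightedHomogeneousSubmodule, xb]
    have h := isWeightedHomogeneous_X k wq (Sum.inl j)
    exact h
  · intro m _
    rw [Finsupp.weight_apply, Finsupp.sum]
    simp

theorem chy_hom (G : MvPolynomial (Fin 3) k) (l j : Fin 3) :
    IsWeightedHomogeneous wq (chy G l j) 1 := by
  have h1 : ∀ j t, IsWeightedHomogeneous wq (gr G (xb (k := k)) j * qb t) 1 := by
    intro j t
    have h2 : IsWeightedHomogeneous wq (gr G (xb (k := k)) j) 0 := xb_hom _
    have h3 : IsWeightedHomogeneous wq (qb (k := k) t) 1 := isWeightedHomogeneous_X k wq (Sum.inr t)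
    have h4 := h2.mul h3
    rwa [zero_add] at h4
  rw [chy]
  split_ifs
  · rw [← mem_weightedHomogeneousSubmodule]
    exact Submodule.neg_mem _ ((h1 _ _).add (h1 _ _))
  · exact h1 _ _
  · exact h1 _ _

theorem chyc_hom (G : MvPolynomial (Fin 3) k) (l : Fin 3) {e i : ℕ} {c : A2 k} (hc : BH e i c) :
    IsWeightedHomogeneous wq ((aeval (Sum.elim xb (chy G l)) : A2 k →ₐ[k] B2 k) c) i := by
  rw [← mem_weightedHomogeneousSubmodule]
  refine wh_mem (weightedHomogeneousSubmodule k wq) (whs_one wq) (whs_mul wq) wy _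
    (fun j => ?_) i c hc.2
  rw [mem_weightedHomogeneousSubmodule]
  rcases j with j | j
  · exact isWeightedHomogeneous_X k wq (Sum.inl j)
  · exact chy_hom G l j

/-- the point of the line, over `LL[η]` -/
noncomputable def xh (a b : Fin 3 → k) : Fin 3 → Polynomial (LL k) :=
  fun i => Polynomial.C (C (a i) * X 0 + C (b i) * X 1)

/-- the direction -/
noncomputable def yh (a n : Fin 3 → k) : Fin 3 → Polynomial (LL k) :=
  fun i => Polynomial.C (C (a i)) + Polynomial.C (C (n i)) * Polynomial.X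

theorem aeval_xh (a b : Fin 3 → k) (P : MvPolynomial (Fin 3) k) :
    aeval (xh a b) P = Polynomial.C (aeval (xL a b) P) := by
  induction P using MvPolynomial.induction_on with
  | C c =>
    rw [algHom_C, algHom_C, IsScalarTower.algebraMap_apply k (LL k) (Polynomial (LL k)),
      Polynomial.algebraMap_apply, Algebra.algebraMap_self, RingHom.id_apply]
  | add p q hp hq => rw [map_add, map_add, map_add, hp, hq]
  | mul_X p i hp => rw [map_mul, map_mul, map_mul, hp, aeval_X, aeval_X, xh, xL]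

theorem lam_deg (G : MvPolynomial (Fin 3) k) (a b n : Fin 3 → k) :
    (dp (gr G (xh a b)) (yh a n)).natDegree ≤ 1 := by
  rw [dp]
  refine Polynomial.natDegree_sum_le_of_forall_le _ _ fun i _ => ?_
  rw [gr, aeval_xh, yh, mul_add, ← Polynomial.C_mul, ← mul_assoc, ← Polynomial.C_mul]
  refine (Polynomial.natDegree_add_le _ _).trans (max_le ?_ ?_)
  · rw [Polynomial.natDegree_C]
    exact Nat.zero_le _
  · exact (Polynomial.natDegree_C_mul_le _ _).trans Polynomial.natDegree_X_le

theorem lam_coeff (G : MvPolynomial (Fin 3) k) (a b n : Fin 3 → k) :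
    (dp (gr G (xh a b)) (yh a n)).coeff 0 = la G a b := by
  rw [dp, la, Polynomial.finsetSum_coeff]
  refine Finset.sum_congr rfl fun i _ => ?_
  rw [gr, aeval_xh, yh, Polynomial.coeff_C_mul, Polynomial.coeff_add, Polynomial.coeff_C_zero,
    Polynomial.coeff_C_mul, Polynomial.coeff_X_zero, mul_zero, add_zero]

theorem P_mem {G : MvPolynomial (Fin 3) k} {d : ℕ} (a b n : Fin 3 → k) (j0 j1 : Fin 3) {i : ℕ}
    {Q : B2 k} (hQ : IsWeightedHomogeneous wq Q i) :
    (aeval (Sum.elim (xh a b) ![pq G d (xh a b) (yh a n) j0, pq G d (xh a b) (yh a n) j1]) :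
        B2 k →ₐ[k] Polynomial (LL k)) Q ∈
      S4 (gL G a b) (dp (gr G (xh a b)) (yh a n)) i := by
  have hx : ∀ j, (xh a b j).natDegree ≤ 0 := fun j => by
    rw [xh, Polynomial.natDegree_C]
  have hp : ∀ j, pq G d (xh a b) (yh a n) j ∈
      S4 (gL G a b) (dp (gr G (xh a b)) (yh a n)) 1 := by
    intro j
    rw [pq, sub_eq_add_neg]
    refine Submodule.add_mem _ (Submodule.subset_span ⟨1, (d : Polynomial (LL k)) * yh a n j,
      le_rfl, ?_, ?_⟩) (Submodule.subset_span ⟨0, - xh a b j, by omega, ?_, ?_⟩)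
    · rw [← Polynomial.C_eq_natCast]
      refine (Polynomial.natDegree_C_mul_le _ _).trans ?_
      rw [yh]
      refine (Polynomial.natDegree_add_le _ _).trans (max_le ?_ ?_)
      · rw [Polynomial.natDegree_C]
        exact Nat.zero_le _
      · exact (Polynomial.natDegree_C_mul_le _ _).trans Polynomial.natDegree_X_le
    · rw [aeval_xh, ← gL_eq, pow_one, Nat.sub_self, pow_zero]
      ring
    · rw [Polynomial.natDegree_neg]
      exact hx j
    · rw [pow_zero, one_mul, Nat.sub_zero, pow_one]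
      ring
  refine wh_mem (S4 (gL G a b) (dp (gr G (xh a b)) (yh a n))) ?_ (S4_mul _ _) wq _ (fun j => ?_)
    i Q hQ
  · refine Submodule.subset_span ⟨0, 1, le_rfl, ?_, ?_⟩
    · rw [Polynomial.natDegree_one]
    · rw [pow_zero, Nat.sub_zero, pow_zero, mul_one, mul_one]
  · rcases j with j | j
    · refine Submodule.subset_span ⟨0, xh a b j, le_rfl, hx j, ?_⟩
      show xh a b j = Polynomial.C (gL G a b) ^ 0 * dp (gr G (xh a b)) (yh a n) ^ 0 * xh a b j
      rw [pow_zero, pow_zero, one_mul, one_mul]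
    · fin_cases j
      · exact hp j0
      · exact hp j1

theorem core (hS : Pool.Agent.H84.SM.T_SCL) [IsAlgClosed k] [CharZero k]
    {G : MvPolynomial (Fin 3) k} {d : ℕ} (hd : 1 ≤ d) (hG : G.IsHomogeneous d)
    {a b : Fin 3 → k} (n : Fin 3 → k) (hT : Trl G a b) {i M : ℕ} {t : ℤ} {c : A2 k}
    (hc : IsSec G d i t M (Polynomial.C c)) {r : ℕ} (hr : r ≤ i)
    (hv : ∀ r', r' < r → (rho a b n c).coeff r' = 0) {π : LL k} (hπ : Prime π)
    (hdvd : π ∣ gL G a b) : π ^ M ∣ gL G a b ^ (i - r) * (rho a b n c).coeff r := by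
  obtain ⟨h1, h2, h3⟩ := gL_sqf hG hT
  obtain ⟨hI, ⟨e, -, hB⟩, hP⟩ := hc
  have h0 : dv c = 0 := by
    have := hI 0
    rwa [Polynomial.coeff_C_zero] at this
  have hBc : BH e i c := by
    have := (hB 0).1 (Nat.zero_le _)
    rwa [Polynomial.coeff_C_zero, mul_zero, Nat.sub_zero] at this
  have hla := not_dvd_la hG hT hπ.irreducible hdvd
  obtain ⟨l, hl⟩ : ∃ l, ¬ π ∣ aeval (xL a b) (pderiv l G) := by
    by_contra hcon
    push Not at hcon
    apply hla
    rw [la]
    exact Finset.dvd_sum fun i _ => (hcon i).mul_right _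
  obtain ⟨Q0, hQ0⟩ : ∃ Q0 : B2 k,
      (aeval (Sum.elim xb (chy G l)) : A2 k →ₐ[k] B2 k) c = aeval xb G ^ M * Q0 := by
    have h4 := hP l
    rw [gp, Psi, Polynomial.coe_eval₂RingHom, Polynomial.eval₂_C, ← Polynomial.C_pow] at h4
    have h5 := (Polynomial.C_dvd_iff_dvd_coeff _ _).1 h4 0
    obtain ⟨q, hq⟩ := h5
    refine ⟨q, ?_⟩
    rw [← hq]
    rw [RingHom.comp_apply, Polynomial.coeff_C_zero]
    rfl
  obtain ⟨Q, hQ, hQi⟩ : ∃ Q : B2 k,
      (aeval (Sum.elim xb (chy G l)) : A2 k →ₐ[k] B2 k) c = aeval xb G ^ M * Q ∧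
      IsWeightedHomogeneous wq Q i := by
    refine ⟨weightedHomogeneousComponent wq i Q0, ?_,
      weightedHomogeneousComponent_isWeightedHomogeneous _ _⟩
    have h4 : IsWeightedHomogeneous wq (aeval xb G ^ M : B2 k) 0 := by
      have := (xb_hom G).pow M
      rwa [smul_zero] at this
    have h5 := Pool.Agent.H61.SM.comp_mul wq h4 Q0 i
    rw [zero_add, ← hQ0] at h5
    rw [← h5]
    have h6 := chyc_hom G l hBc
    rw [weightedHomogeneousComponent_of_mem (m := i) ((mem_weightedHomogeneousSubmodule k wq _ _).2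
      h6), if_pos rfl]
  have hid := ident hS hG hBc h0 l M Q hQ (xh a b) (yh a n)
  set P : Polynomial (LL k) := (aeval (Sum.elim (xh a b) ![pq G d (xh a b) (yh a n) (l + 1),
    pq G d (xh a b) (yh a n) (l + 2)]) : B2 k →ₐ[k] Polynomial (LL k)) Q with hPdef
  have hmem : P ∈ S4 (gL G a b) (dp (gr G (xh a b)) (yh a n)) i := P_mem a b n _ _ hQi
  have hrho : (aeval (Sum.elim (xh a b) (yh a n)) : A2 k →ₐ[k] Polynomial (LL k)) c =
      rho a b n c := rfl
  have hcoef : ∀ j, (aeval (xL a b) (pderiv l G) * ((d : LL k) * gL G a b)) ^ i *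
      (rho a b n c).coeff j = gL G a b ^ M * P.coeff j := by
    intro j
    rw [hrho, gr, aeval_xh, aeval_xh, ← gL_eq G] at hid
    have h4 : (Polynomial.C (aeval (xL a b) (pderiv l G)) * ((d : Polynomial (LL k)) *
        Polynomial.C (gL G a b))) ^ i = Polynomial.C ((aeval (xL a b) (pderiv l G) *
          ((d : LL k) * gL G a b)) ^ i) := by
      rw [Polynomial.C_pow, Polynomial.C_mul, Polynomial.C_mul, Polynomial.C_eq_natCast]
    rw [h4, ← Polynomial.C_pow] at hid
    have h5 := congrArg (fun f => Polynomial.coeff f j) hid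
    simp only [Polynomial.coeff_C_mul] at h5
    exact h5
  have hg0 : ∀ j, j < r → P.coeff j = 0 := by
    intro j hj
    have h4 := hcoef j
    rw [hv j hj, mul_zero] at h4
    exact (mul_eq_zero.1 h4.symm).resolve_left (pow_ne_zero _ h3)
  have hfst : π ^ r ∣ P.coeff r := by
    refine S4_fst (lam_deg G a b n) hdvd hπ ?_ hr hmem hg0
    rw [lam_coeff]
    exact hla
  obtain ⟨g', hg'⟩ := hdvd
  have hg'd : ¬ π ∣ g' := by
    rintro ⟨q, hq⟩
    exact hπ.not_isUnit (h1 π ⟨q, by rw [hg', hq, mul_assoc]⟩)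
  have hdd : ¬ π ∣ (d : LL k) := by
    intro h4
    have h5 : IsUnit (d : LL k) := by
      have h6 : (d : LL k) = C (d : k) := by rw [map_natCast]
      rw [h6]
      refine IsUnit.map C ?_
      rw [isUnit_iff_ne_zero]
      exact_mod_cast (by omega : d ≠ 0)
    exact hπ.not_isUnit (isUnit_of_dvd_unit h4 h5)
  -- `π ^ (M + r) ∣ π ^ i * coeff`
  have h4 : π ^ (M + r) ∣ (aeval (xL a b) (pderiv l G) * ((d : LL k) * g')) ^ i *
      (π ^ i * (rho a b n c).coeff r) := by
    have h5 : (aeval (xL a b) (pderiv l G) * ((d : LL k) * g')) ^ i *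
        (π ^ i * (rho a b n c).coeff r) = gL G a b ^ M * P.coeff r := by
      rw [← hcoef r, hg']
      ring
    rw [h5, pow_add, hg', mul_pow, mul_assoc]
    exact mul_dvd_mul_left _ (hfst.mul_left _)
  have h5 : π ^ (M + r) ∣ π ^ i * (rho a b n c).coeff r := by
    refine hπ.pow_dvd_of_dvd_mul_left _ (fun h6 => ?_) h4
    rcases hπ.dvd_or_dvd (hπ.dvd_of_dvd_pow h6) with h7 | h7
    · exact hl h7
    · rcases hπ.dvd_or_dvd h7 with h8 | h8
      · exact hdd h8
      · exact hg'd h8
  have h6 : π ^ M ∣ π ^ (i - r) * (rho a b n c).coeff r := by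
    obtain ⟨q, hq⟩ := h5
    refine ⟨q, mul_left_cancel₀ (pow_ne_zero r hπ.ne_zero) ?_⟩
    have h7 : π ^ i = π ^ r * π ^ (i - r) := by
      rw [← pow_add]
      congr 1
      omega
    rw [← mul_assoc, ← h7, hq, pow_add]
    ring
  rw [hg', mul_pow]
  obtain ⟨q, hq⟩ := h6
  refine ⟨g' ^ (i - r) * q, ?_⟩
  linear_combination g' ^ (i - r) * hq

end Main

theorem pf_LRB (hS : Pool.Agent.H84.SM.T_SCL) : T_LRB := by
  intro k _ _ _ G d hd hG hs a b n hT
  obtain ⟨h1, h2, h3⟩ := gL_sqf hG hT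
  refine ⟨h1, h2, h3, ?_⟩
  intro i M t c hc r hr hv
  exact sqf_pow_dvd M _ _ h3 h1 fun π hπ hdvd => core hS hd hG n hT hc hr hv hπ hdvd

end Pool.Agent.H42.ND
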